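import Pool.Agent.R425.P.Iv
import Pool.Agent.Y852.GS.Spl

/-!
# From the rational numbers to a totally real field
-/

set_option autoImplicit false
set_option linter.all false

open NumberField IsDedekindDomain WithZero WeierstrassCurve WeierstrassCurve.Affine
open scoped NNReal Classical

namespace Pool.Agent.R425.P

open Pool.Agent.TH115.GD
open Pool.Agent.Y702.G (sh base pts)
open Pool.Agent.Y355.G (trE trE_inj trE_surj trE_act V_roots sh_disc isSh')
open Pool.Agent.R425.G
open Pool.Agent.Y852.GS (act_comp)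

section use

variable (W : WeierstrassCurve ℤ)

/-- The triviality of the Selmer group, for cocycles on another algebraic closure. -/
theorem selT_use {F K : Type} [Field F] [NumberField F] [Field K] [NumberField K] [Algebra F K]
    (hS : SelT (sh W) F)
    (g : (AlgebraicClosure K ≃ₐ[F] AlgebraicClosure K) → Pt (sh W) (AlgebraicClosure K))
    [IsScalarTower ℚ F (AlgebraicClosure K)]
    (hg : IsCoc (F := F) (sh W) g) (hg2 : ∀ σ, g σ + g σ = 0)
    (hF : ∀ p : HeightOneSpectrum (𝓞 F), LocTriv (F := F) (Ω := AlgebraicClosure K) (sh W)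
      (p.adicCompletion F) (AlgebraicClosure (p.adicCompletion F)) g)
    (hI : ∀ u : InfinitePlace F, LocTriv (F := F) (Ω := AlgebraicClosure K) (sh W)
      u.Completion (AlgebraicClosure u.Completion) g) :
    ∃ T : Pt (sh W) (AlgebraicClosure K), T + T = 0 ∧ ∀ σ, g σ = act (sh W) (rs ℚ σ) T - T := by
  haveI : IsGalois F (AlgebraicClosure F) := by
    haveI : CharZero F := inferInstance
    infer_instance
  haveI : Algebra.IsAlgebraic F (AlgebraicClosure K) := Algebra.IsAlgebraic.trans F K _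
  haveI : IsAlgClosure F (AlgebraicClosure K) := ⟨inferInstance, inferInstance⟩
  haveI : IsGalois F (AlgebraicClosure K) := IsAlgClosure.isGalois F _
  let ε : AlgebraicClosure K ≃ₐ[F] AlgebraicClosure F :=
    IsAlgClosure.equiv F (AlgebraicClosure K) (AlgebraicClosure F)
  have hcoc : IsCoc (F := F) (sh W) (fun σ : AlgebraicClosure F ≃ₐ[F] AlgebraicClosure F =>
      cj (sh W) ε g σ) := by
    refine ⟨?_, fun σ τ => cj_mul ε hg σ τ⟩
    exact (hg.1.comp_continuous (cont_cj ε)).comp (act (sh W) (eq' ε))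
  obtain ⟨T, hT, hT2⟩ := hS _ hcoc (fun σ => cj_two ε hg2 _)
    (fun p => by
      haveI : IsGalois (p.adicCompletion F) (AlgebraicClosure (p.adicCompletion F)) := by
        haveI : CharZero (p.adicCompletion F) := algebraRat.charZero _
        infer_instance
      exact loc_bc (M := F) ε hg (RingHom.id _) (fun x => rfl) IsAlgClosed.lift (hF p))
    (fun u => by
      haveI : IsGalois (u.Completion) (AlgebraicClosure (u.Completion)) := by
        haveI : CharZero (u.Completion) := algebraRat.charZero _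
        infer_instance
      exact loc_bc (M := F) ε hg (RingHom.id _) (fun x => rfl) IsAlgClosed.lift (hI u))
  exact cj_back ε hT hT2

end use

/-- An isomorphism of the completions: local triviality. -/
theorem loc_iso (V : WeierstrassCurve ℚ) {K : Type} [Field K] [NumberField K]
    (g : (AlgebraicClosure K ≃ₐ[ℚ] AlgebraicClosure K) → Pt V (AlgebraicClosure K))
    {L E : Type} [Field L] [Field E] [Algebra ℚ L] [Algebra K E] [Algebra ℚ E]
    [IsScalarTower ℚ K E] (e : L ≃+* E)
    (hloc : LocTriv V E (AlgebraicClosure E)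
      (fun σ : AlgebraicClosure K ≃ₐ[K] AlgebraicClosure K => g (σ.restrictScalars ℚ))) :
    LocTriv (F := ℚ) (Ω := AlgebraicClosure K) V L (AlgebraicClosure L) g := by
  obtain ⟨ι, P, hP⟩ := hloc
  let φ : AlgebraicClosure L ≃+* AlgebraicClosure E :=
    IsAlgClosure.equivOfEquiv (AlgebraicClosure L) (AlgebraicClosure E) e
  have hφ : ∀ x : L, φ (algebraMap _ _ x) = algebraMap _ _ (e x) := fun x =>
    IsAlgClosure.equivOfEquiv_algebraMap _ _ e x
  let ψ : AlgebraicClosure E →ₐ[ℚ] AlgebraicClosure L :=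
    { φ.symm.toRingHom with
      commutes' := fun x => by
        show φ.symm (algebraMap ℚ _ x) = _
        rw [eq_ratCast, eq_ratCast, map_ratCast] }
  have hψ : ∀ x, ψ x = φ.symm x := fun x => rfl
  let ι' : AlgebraicClosure K →ₐ[ℚ] AlgebraicClosure L :=
    ψ.comp (ι.restrictScalars ℚ)
  have hι' : ∀ x, ι' x = φ.symm (ι x) := fun x => rfl
  refine ⟨ι', act V ψ P, fun τ' σ' h => ?_⟩
  -- `τ'` fixes `K`
  have hK : ∀ x : K, ι' (algebraMap K _ x) =
      algebraMap L _ (e.symm (algebraMap K _ x)) := by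
    intro x
    rw [hι', ι.commutes, RingEquiv.symm_apply_eq, hφ, RingEquiv.apply_symm_apply]
    rfl
  have hσK : ∀ x : K, σ' (algebraMap K _ x) = algebraMap K _ x := by
    intro x
    apply ι'.toRingHom.injective
    show ι' _ = ι' _
    rw [← h, hK, τ'.commutes]
  let σ : AlgebraicClosure K ≃ₐ[K] AlgebraicClosure K :=
    AlgEquiv.ofRingEquiv (f := σ'.toRingEquiv) hσK
  have hσ : σ.restrictScalars ℚ = σ' := by
    ext x
    rfl
  have hinv : ∀ x : E, φ.symm (algebraMap _ _ x) =
      algebraMap _ _ (e.symm x) := by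
    intro x
    rw [RingEquiv.symm_apply_eq, hφ, RingEquiv.apply_symm_apply]
  let τ : AlgebraicClosure E ≃ₐ[E] AlgebraicClosure E :=
    AlgEquiv.ofRingEquiv (f := (φ.symm.trans τ'.toRingEquiv).trans φ) (fun x => by
      show φ (τ' (φ.symm _)) = _
      rw [hinv, τ'.commutes, hφ, RingEquiv.apply_symm_apply])
  have hτ : ∀ x, τ x = φ (τ' (φ.symm x)) := fun x => rfl
  have h1 := hP τ σ (fun x => by
    rw [hτ]
    have h2 := h x
    rw [hι', hι'] at h2
    rw [h2, RingEquiv.apply_symm_apply]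
    rfl)
  rw [← hσ]
  have h2 := congrArg (act V ψ) h1
  have e3 : ψ.comp (rs ℚ τ) = (rs ℚ τ').comp ψ := by
    refine AlgHom.ext fun x => ?_
    show φ.symm (φ (τ' (φ.symm x))) = τ' (φ.symm x)
    rw [RingEquiv.symm_apply_apply]
  have e4 : act V ψ (act V (rs ℚ τ) P) = act V (rs ℚ τ') (act V ψ P) := by
    rw [act_comp, act_comp, e3]
  rw [map_sub, e4] at h2
  rw [← h2]
  exact (act_comp V (ι.restrictScalars ℚ) ψ _).symm

section main

variable (W : WeierstrassCurve ℤ) (hW : W.Δ ≠ 0)

include hW in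
/-- the points, from the triviality of the Selmer group -/
theorem div_twoP {K : Type} [Field K] [NumberField K] (hS : SelT (sh W) K) (P : Pt (sh W) K) :
    ∃ Q : Pt (sh W) K, Q + Q = P := by
  obtain ⟨a, b, c, hC⟩ := V_roots (V := sh W) rfl rfl (sh_disc hW) (AlgebraicClosure K)
  obtain ⟨Q, hQ⟩ := halveC hC (act (sh W) (incl ℚ K (AlgebraicClosure K)) P)
  have h2 : ∀ σ : AlgebraicClosure K ≃ₐ[K] AlgebraicClosure K,
      (act (sh W) (rs ℚ σ) Q - Q) + (act (sh W) (rs ℚ σ) Q - Q) = 0 := by
    intro σ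
    rw [sub_add_sub_comm, ← map_add]
    rw [hQ, rs_act_incl, sub_self]
  have hloc : ∀ v : HeightOneSpectrum (𝓞 K),
      LocTriv (sh W) (v.adicCompletion K) (AlgebraicClosure (v.adicCompletion K))
        (fun σ : AlgebraicClosure K ≃ₐ[K] AlgebraicClosure K => act (sh W) (rs ℚ σ) Q - Q) := by
    intro v
    refine Y809.BS.loc_congr (LocTriv.sub (sh W) (Y809.BS.loc_zero' (sh W)) (-Q)) fun σ => ?_
    rw [map_neg]
    abel
  have hloc' : ∀ v : InfinitePlace K,
      LocTriv (sh W) v.Completion (AlgebraicClosure v.Completion)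
        (fun σ : AlgebraicClosure K ≃ₐ[K] AlgebraicClosure K => act (sh W) (rs ℚ σ) Q - Q) := by
    intro v
    refine Y809.BS.loc_congr (LocTriv.sub (sh W) (Y809.BS.loc_zero' (sh W)) (-Q)) fun σ => ?_
    rw [map_neg]
    abel
  obtain ⟨T, hT, h3⟩ := hS _ (cob_isCoc (sh W) Q) h2 hloc hloc'
  obtain ⟨Q0, hQ0⟩ := fixed_point (K := ℚ) (F := K) (sh W) (Q - T) (fun σ => by
    have := h3 σ
    rw [map_sub]
    have e : act (sh W) (rs ℚ σ) Q - act (sh W) (rs ℚ σ) T - (Q - T) =
      (act (sh W) (rs ℚ σ) Q - Q) - (act (sh W) (rs ℚ σ) T - T) := by abel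
    rw [← sub_eq_zero, e, this, sub_self])
  refine ⟨Q0, act_inj (sh W) (incl ℚ K (AlgebraicClosure K)) ?_⟩
  rw [map_add, hQ0, sub_add_sub_comm, hT, sub_zero]
  exact hQ

include hW in
theorem finite_of_selT {K : Type} [Field K] [NumberField K] (hS : SelT (sh W) K) :
    Finite (base W K).toAffine.Point := by
  obtain ⟨h1, h2⟩ := Pool.Agent.Y809.BS.finite_odd (Y355.G.mw W hW K) (div_twoP W hW hS)
  let e : (base W K).toAffine.Point ≃ Pt (sh W) K := Equiv.ofBijective (Y355.G.tr (isSh' W K))
    ⟨fun P Q h => Y355.G.tr_inj _ h, fun Q => Y355.G.tr_surj _ Q⟩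
  exact Finite.of_equiv _ e.symm

end main

end Pool.Agent.R425.P
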