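import Pool.Agent.R425.G.Al
import Pool.Agent.R425.P.Up

/-!
# The algebraic side of the equivalence, positive discriminant
-/

set_option autoImplicit false
set_option linter.all false

open NumberField IsDedekindDomain WithZero WeierstrassCurve WeierstrassCurve.Affine
open scoped NNReal Classical

namespace Pool.Agent.R425.P

open Pool.Agent.TH115.GD
open Pool.Agent.Y702.G (sh base pts)
open Pool.Agent.R425 (Ev ev_of_disc unr_of_disc)
open Pool.Agent.R425.G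

variable (W : WeierstrassCurve ℤ)

theorem selT_up (hΔ : W.Δ ≠ 0) (hnr : ∀ x : ℚ, cub (sh W) x ≠ 0) (hsQ : SelT (sh W) ℚ)
    (K : Type) [Field K] [NumberField K] [IsGalois ℚ K] (hre : ∀ v : InfinitePlace K, v.IsReal)
    (n m : ℕ) (hn : Module.finrank ℚ K = 2 ^ n)
    (hm : ∀ l : ℕ, l.Prime → l ∣ m → ¬ (l : ℤ) ∣ 2 * W.Δ ∧ Odd ((l : ℤ) - pts W (ZMod l)))
    (hunr : ∀ (p : ℕ), p.Prime → ¬ p ∣ m → ∀ v : HeightOneSpectrum (𝓞 K), (p : 𝓞 K) ∈ v.asIdeal →
      v.valuation K (p : K) = exp (-1 : ℤ))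
    (hdeg : ∀ v : HeightOneSpectrum (𝓞 K), ((2 * W.Δ : ℤ) : 𝓞 K) ∈ v.asIdeal →
      (Ideal.absNorm v.asIdeal).Prime) : SelT (sh W) K := by
  have hV : (sh W).Δ ≠ 0 := Y355.G.sh_disc hΔ
  have hnrK := Pool.Agent.Y702.G.no_root (sh W) hnr K n hn
  by_contra hcon
  obtain ⟨g, hg1, hg2, hg3, hg4, hg4', hg5⟩ := s_invP (sh W) rfl rfl hV K hre n hn hnrK hcon
  obtain ⟨A, M, iA, iA', iM, iM', iAM, iKM, θ, z, hθ, hA, hM, hz0, hzn, hzs, hloc, i, t, hrel⟩ :=
    Pool.Agent.Y141.G2.s_kump (sh W) rfl rfl hV K n hn hnrK g hg1 hg2 hg3 hg4 hg5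
  apply hg5
  have hpar := Pool.Agent.Y76.GPar.s_par W hΔ K A M θ z m hθ hnr hA hM hz0 hzn hm hunr hloc
  obtain ⟨v0⟩ : Nonempty (InfinitePlace K) := inferInstance
  have h := selT_use W (F := ℚ) (K := K) hsQ g ⟨hg1, fun σ τ => hg2 σ τ⟩ hg3 (fun p => by
    by_cases hp : p.valuation ℚ (2 * (sh W).Δ) = 1
    · exact (Pool.Agent.Y710.CV.s_conv Pool.Agent.Y46.G2.s_emb) (sh W) rfl rfl hV hnr K g hg1 hg2
        hg3 A θ z hθ hA i t hrel p
        ((Pool.Agent.Y67.LZ.s_lz Pool.Agent.Y500.G.s_fl) W hΔ hnr A θ z hθ hA hz0 hzn hpar p hp)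
    · obtain ⟨v, hv1, hv2⟩ := Pool.Agent.Y702.G.exists_place W hΔ m
        (fun l hl hlm => (hm l hl hlm).1) hunr p hp
      exact Pool.Agent.Y852.GS.s_spl (sh W) K g v p hv2 (hdeg v hv1) (hg4 v))
    (fun u => by
      have hu : u.IsReal := by
        rw [Subsingleton.elim u Rat.infinitePlace]
        exact Rat.isReal_infinitePlace
      exact loc_iso (sh W) g ((InfinitePlace.Completion.ringEquivRealOfIsReal hu).trans
        (InfinitePlace.Completion.ringEquivRealOfIsReal (hre v0)).symm) (hg4' v0))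
  obtain ⟨T, hT, hT2⟩ := h
  exact ⟨T, hT, fun σ => hT2 σ⟩

/-- no class over a totally complex field, no root modulo the ramified primes -/
theorem selT_noP (K : Type) [Field K] [NumberField K] [IsGalois ℚ K] (hD : 0 < W.Δ)
    (hnr : ∀ x : K, cub (sh W) x ≠ 0) (hS : SelT (sh W) K) {l : ℕ} (hl : l.Prime)
    (hlD : ¬ (l : ℤ) ∣ 2 * W.Δ) (hram : Ev K l) :
    ¬ ((∃ n : ℤ, (l : ℤ) ∣ n ^ 3 + W.b₂ * n ^ 2 + 8 * W.b₄ * n + 16 * W.b₆) ∨
      ∀ v : InfinitePlace K, ¬ v.IsReal) := by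
  intro hn
  haveI : IsGalois ℚ (AlgebraicClosure K) := IsGalois.mk
  obtain ⟨g, hg1, hg2, hg3, hg4, hg5, hg6⟩ := exists_classP K hD hnr hl hlD hn hram
  apply hg6
  have hcocQ : IsCoc (F := ℚ) (sh W) g := ⟨hg1, hg2⟩
  have hcoc : IsCoc (F := K) (sh W) (fun σ : AlgebraicClosure K ≃ₐ[K] AlgebraicClosure K =>
      g (σ.restrictScalars ℚ)) := by
    refine ⟨?_, fun σ τ => hg2 (σ.restrictScalars ℚ) (τ.restrictScalars ℚ)⟩
    exact hg1.comp_continuous cont_rs
  have hloc : ∀ (L : Type) [Field L] [Algebra K L] [Algebra ℚ L] [IsScalarTower ℚ K L],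
      LocTriv (F := ℚ) (Ω := AlgebraicClosure K) (sh W) L (AlgebraicClosure L) g →
      LocTriv (F := K) (Ω := AlgebraicClosure K) (sh W) L (AlgebraicClosure L)
        (fun σ : AlgebraicClosure K ≃ₐ[K] AlgebraicClosure K => g (σ.restrictScalars ℚ)) := by
    intro L _ _ _ _ h
    let ι : AlgebraicClosure K →ₐ[K] AlgebraicClosure L := IsAlgClosed.lift
    obtain ⟨P, hP⟩ := LocTriv.of_any (sh W) hcocQ h (ι.restrictScalars ℚ)
    exact ⟨ι, P, fun τ σ hτ => hP τ (σ.restrictScalars ℚ) hτ⟩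
  exact hS _ hcoc (fun σ => hg3 _) (fun v => hloc _ (hg4 v)) (fun v => hloc _ (hg5 v))

/-- **The algebraic side.** -/
theorem alg_iffP (hΔ : 0 < W.Δ) (hnr : ∀ x : ℚ, cub (sh W) x ≠ 0) (K : Type) [Field K]
    [NumberField K] [IsGalois ℚ K] (n : ℕ) (hn : Module.finrank ℚ K = 2 ^ n)
    (hco : ∀ l : ℕ, l.Prime → (l : ℤ) ∣ discr K → ¬ (l : ℤ) ∣ 2 * W.Δ)
    (hdeg : ∀ v : HeightOneSpectrum (𝓞 K), ((2 * W.Δ : ℤ) : 𝓞 K) ∈ v.asIdeal →
      (Ideal.absNorm v.asIdeal).Prime) :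
    (Finite (base W K).toAffine.Point ∧
        ∀ s : Pool.Agent.TH841.NF.D.Sha (base W K), 2 • s = 0 → s = 0) ↔
      (Finite (base W ℚ).toAffine.Point ∧
        ∀ s : Pool.Agent.TH841.NF.D.Sha (base W ℚ), 2 • s = 0 → s = 0) ∧
      InfinitePlace.nrComplexPlaces K = 0 ∧
      ∀ l : ℕ, l.Prime → (l : ℤ) ∣ discr K → Odd ((l : ℤ) - pts W (ZMod l)) := by
  have hnrK := Pool.Agent.Y702.G.no_root (sh W) hnr K n hn
  constructor
  · rintro ⟨hfin, hsha⟩
    have hS := selT_of W K hΔ.ne' hnrK hfin hsha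
    have hram : ∀ l : ℕ, l.Prime → (l : ℤ) ∣ discr K →
        ¬ ((∃ n : ℤ, (l : ℤ) ∣ n ^ 3 + W.b₂ * n ^ 2 + 8 * W.b₄ * n + 16 * W.b₆) ∨
          ∀ v : InfinitePlace K, ¬ v.IsReal) := fun l hl hld =>
      selT_noP W K hΔ hnrK hS hl (hco l hl hld) (ev_of_disc K hn hl hld)
    refine ⟨⟨fin_Q W hfin, sha_two W hΔ.ne' (selT_Q W hΔ.ne' hnrK hS)⟩, ?_, fun l hl hld => ?_⟩
    · by_contra hcx
      -- the field is totally complex and a prime is ramified
      have hallc : ∀ v : InfinitePlace K, ¬ v.IsReal := by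
        intro v hv
        apply hcx
        rw [InfinitePlace.nrComplexPlaces, Fintype.card_eq_zero_iff]
        refine ⟨fun ⟨w, hw⟩ => ?_⟩
        obtain ⟨σ, rfl⟩ := InfinitePlace.exists_smul_eq_of_comap_eq (k := ℚ) (K := K) (w := v) (w' := w)
          (Subsingleton.elim _ _)
        exact InfinitePlace.not_isReal_iff_isComplex.2 hw (InfinitePlace.isReal_smul_iff.2 hv)
      have hdeg1 : 1 < Module.finrank ℚ K := by
        by_contra hle
        have hpos := Module.finrank_pos (R := ℚ) (M := K)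
        have h1 := InfinitePlace.card_add_two_mul_card_eq_rank K
        omega
      have hd2 := NumberField.abs_discr_gt_two hdeg1
      have hne1 : (discr K).natAbs ≠ 1 := by
        intro h1
        have h2 : |discr K| = 1 := by
          rw [Int.abs_eq_natAbs, h1]
          rfl
        omega
      obtain ⟨l, hl, hld⟩ := Nat.exists_prime_and_dvd hne1
      exact hram l hl (Int.natCast_dvd.2 hld) (Or.inr hallc)
    · by_contra hev
      obtain ⟨r, hr⟩ := Pool.Agent.R425.G.exists_root W hl (hco l hl hld) hev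
      exact hram l hl hld (Or.inl ⟨r, hr⟩)
  · rintro ⟨⟨hfin, hsha⟩, hcx, hodd⟩
    have hre : ∀ v : InfinitePlace K, v.IsReal := by
      intro v
      rw [InfinitePlace.nrComplexPlaces, Fintype.card_eq_zero_iff] at hcx
      by_contra hv
      exact hcx.false ⟨v, InfinitePlace.not_isReal_iff_isComplex.1 hv⟩
    have hsQ := selT_of W ℚ hΔ.ne' hnr hfin hsha
    have hSK := selT_up W hΔ.ne' hnr hsQ K hre n (discr K).natAbs hn
      (fun l hl hlm => ⟨hco l hl (Int.natCast_dvd.2 hlm), hodd l hl (Int.natCast_dvd.2 hlm)⟩)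
      (fun p hp hpm v hv => unr_of_disc K hp (fun h => hpm (Int.natCast_dvd.1 h)) v hv) hdeg
    exact ⟨finite_of_selT W hΔ.ne' hSK, fun s hs => sha_two W hΔ.ne' hSK s hs⟩

end Pool.Agent.R425.P
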