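import Pool.Agent.R425.G.Cl3
import Pool.Agent.R425.P.Zg

/-!
# Positive discriminant: the real roots, the units and the condition at the real places
-/

set_option autoImplicit false
set_option linter.all false

open NumberField IsDedekindDomain WithZero WeierstrassCurve WeierstrassCurve.Affine
open scoped NNReal Classical

namespace Pool.Agent.R425.P

open Pool.Agent.TH115.GD
open Pool.Agent.Y710.CV (Cond cond1 cond2)
open Pool.Agent.Y702.G (sh base pts)
open Pool.Agent.R425.G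

section roots

variable {W : WeierstrassCurve ℤ}

theorem real_root (hW : 0 < W.Δ) (x : ℂ) (hx : cub (sh W) x = 0) : starRingEnd ℂ x = x := by
  have hV := iv_sh W hW.ne'
  obtain ⟨a, b, c, hC0⟩ := Y355.G.V_roots hV.a1 hV.a3 hV.Δ ℂ
  obtain ⟨e2, e3, hC⟩ := hC0.at_root (hC0.root hx)
  by_contra hne
  have hroot : ∀ x : ℂ, cub (sh W) x = 0 → cub (sh W) (starRingEnd ℂ x) = 0 := by
    intro x hx
    have h1 := congrArg (starRingEnd ℂ) hx
    rw [cub_sh] at h1 ⊢
    simpa only [map_add, map_mul, map_pow, map_ofNat, map_intCast, map_zero] using h1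
  have hsum : x + e2 + e3 = -(W.b₂ : ℂ) := by
    have h2 := hC.e2
    have c2 : algebraMap ℚ ℂ (sh W).a₂ = (W.b₂ : ℂ) := by
      show algebraMap ℚ ℂ ((W.b₂ : ℤ) : ℚ) = _
      rw [map_intCast]
    rw [c2] at h2
    linear_combination h2
  have hd := disc_sh hC
  have hΔ : (0 : ℝ) < 256 * ((W.Δ : ℤ) : ℝ) := by
    have h1 : (0 : ℝ) < ((W.Δ : ℤ) : ℝ) := by exact_mod_cast hW
    linarith
  -- the conjugate root
  have key : ∀ t : ℂ, x + starRingEnd ℂ x + t = -(W.b₂ : ℂ) →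
      (x - starRingEnd ℂ x) ^ 2 * (x - t) ^ 2 * (starRingEnd ℂ x - t) ^ 2 = 256 * (W.Δ : ℂ) →
      False := by
    intro t ht hd'
    have htr : starRingEnd ℂ t = t := by
      have h1 := congrArg (starRingEnd ℂ) ht
      simp only [map_add, map_neg, map_intCast, Complex.conj_conj] at h1
      linear_combination h1 - ht
    have e1 : (x - starRingEnd ℂ x) ^ 2 = ((-(4 * x.im ^ 2) : ℝ) : ℂ) := by
      rw [Complex.sub_conj]
      push_cast
      rw [mul_pow, Complex.I_sq]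
      ring
    have e2 : (x - t) ^ 2 * (starRingEnd ℂ x - t) ^ 2 = ((Complex.normSq (x - t) ^ 2 : ℝ) : ℂ) := by
      have h1 : starRingEnd ℂ x - t = starRingEnd ℂ (x - t) := by rw [map_sub, htr]
      rw [h1, ← mul_pow, Complex.mul_conj]
      push_cast
      rfl
    rw [mul_assoc, e2, e1] at hd'
    have h3 : -(4 * x.im ^ 2) * Complex.normSq (x - t) ^ 2 = 256 * ((W.Δ : ℤ) : ℝ) := by
      exact_mod_cast hd'
    have h4 : 0 ≤ 4 * x.im ^ 2 * Complex.normSq (x - t) ^ 2 := by positivity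
    linarith
  rcases hC.root (hroot x hx) with h1 | h1 | h1
  · exact hne h1
  · rw [← h1] at hsum hd
    exact key e3 hsum hd
  · rw [← h1] at hsum hd
    refine key e2 (by linear_combination hsum) ?_
    linear_combination hd

theorem isC_swap {F : Type*} [Field F] {V : WeierstrassCurve.Affine F} {a b c : F}
    (h : IsC V a b c) : IsC V a c b :=
  ⟨h.a1, h.a3, by rw [h.a2]; ring, by rw [h.a4]; ring, by rw [h.a6]; ring, h.two, h.ac, h.ab,
    h.bc.symm⟩

theorem isC_rot {F : Type*} [Field F] {V : WeierstrassCurve.Affine F} {a b c : F}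
    (h : IsC V a b c) : IsC V b a c :=
  ⟨h.a1, h.a3, by rw [h.a2]; ring, by rw [h.a4]; ring, by rw [h.a6]; ring, h.two, h.ab.symm, h.bc,
    h.ac⟩

theorem exists_roots (hW : 0 < W.Δ) : ∃ x1 x2 x3 : ℝ, x1 < x2 ∧ x2 < x3 ∧
    IsC ((sh W).baseChange ℂ).toAffine (x1 : ℂ) (x2 : ℂ) (x3 : ℂ) := by
  have hV := iv_sh W hW.ne'
  obtain ⟨a, b, c, hC⟩ := Y355.G.V_roots hV.a1 hV.a3 hV.Δ ℂ
  obtain ⟨a, rfl⟩ := Complex.conj_eq_iff_real.1 (real_root hW a hC.root_a)
  obtain ⟨b, rfl⟩ := Complex.conj_eq_iff_real.1 (real_root hW b hC.root_b)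
  obtain ⟨c, rfl⟩ := Complex.conj_eq_iff_real.1 (real_root hW c hC.root_c)
  have hab : a ≠ b := fun h => hC.ab (by rw [h])
  have hac : a ≠ c := fun h => hC.ac (by rw [h])
  have hbc : b ≠ c := fun h => hC.bc (by rw [h])
  rcases lt_or_gt_of_ne hab with h1 | h1
  · rcases lt_or_gt_of_ne hbc with h2 | h2
    · exact ⟨a, b, c, h1, h2, hC⟩
    · rcases lt_or_gt_of_ne hac with h3 | h3
      · exact ⟨a, c, b, h3, h2, isC_swap hC⟩
      · exact ⟨c, a, b, h3, h1, isC_rot (isC_swap hC)⟩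
  · rcases lt_or_gt_of_ne hac with h2 | h2
    · exact ⟨b, a, c, h1, h2, isC_rot hC⟩
    · rcases lt_or_gt_of_ne hbc with h3 | h3
      · exact ⟨b, c, a, h3, h2, isC_swap (isC_rot hC)⟩
      · exact ⟨c, b, a, h3, h1, isC_rot (isC_swap (isC_rot hC))⟩

end roots

section emb

variable {W : WeierstrassCurve ℤ} {A : Type} [Field A] [NumberField A] {θ : A}

theorem real_emb (h : CF (sh W) A θ) (hW : 0 < W.Δ) (φ : A →+* ℂ) (z : A) :
    starRingEnd ℂ (φ z) = φ z := by
  have h1 := real_root hW (φ θ) (root_em h φ)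
  set e : Rt (sh W) ℂ := ⟨φ θ, root_em h φ⟩ with he
  have h2 : φ z = em h e z := em_uniq h e φ rfl z
  have h3 : starRingEnd ℂ (φ z) = em h e z := em_uniq h e ((starRingEnd ℂ).comp φ) h1 z
  rw [h3, h2]

theorem rank_two (h : CF (sh W) A θ) (hW : 0 < W.Δ) : Units.rank A = 2 := by
  have h0 : InfinitePlace.nrComplexPlaces A = 0 := by
    rw [InfinitePlace.nrComplexPlaces, Fintype.card_eq_zero_iff]
    refine ⟨fun ⟨w, hw⟩ => ?_⟩
    apply InfinitePlace.not_isReal_iff_isComplex.2 hw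
    rw [InfinitePlace.isReal_iff]
    exact RingHom.ext fun z => real_emb h hW _ z
  have h1 := InfinitePlace.card_add_two_mul_card_eq_rank A
  have h2 := InfinitePlace.card_eq_nrRealPlaces_add_nrComplexPlaces A
  rw [h.deg] at h1
  unfold Units.rank
  omega

theorem em_real (h : CF (sh W) A θ) (hW : 0 < W.Δ) (e : Rt (sh W) ℂ) (z : A) :
    em h e z = ((em h e z).re : ℂ) :=
  (Complex.conj_eq_iff_re.1 (real_emb h hW (em h e : A →+* ℂ) z)).symm

/-- the product of the values at two roots -/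
noncomputable def pr (h : CF (sh W) A θ) (hW : 0 < W.Δ) (e e' : Rt (sh W) ℂ) : Aˣ →* ℝ where
  toFun z := (em h e (z : A)).re * (em h e' (z : A)).re
  map_one' := by simp
  map_mul' z z' := by
    have h1 : ∀ e : Rt (sh W) ℂ, (em h e ((z * z' : Aˣ) : A)).re =
        (em h e (z : A)).re * (em h e (z' : A)).re := by
      intro e
      rw [Units.val_mul, map_mul, em_real h hW e (z : A), em_real h hW e (z' : A),
        ← Complex.ofReal_mul, Complex.ofReal_re, Complex.ofReal_re, Complex.ofReal_re]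
    rw [h1, h1]
    ring

theorem pr_inv (h : CF (sh W) A θ) (hW : 0 < W.Δ) (e e' : Rt (sh W) ℂ) (z : Aˣ) :
    pr h hW e e' z * pr h hW e e' z⁻¹ = 1 := by
  rw [← map_mul, mul_inv_cancel, map_one]

/-- the elements with a positive product -/
noncomputable def RS (h : CF (sh W) A θ) (hW : 0 < W.Δ) (e e' : Rt (sh W) ℂ) : Subgroup Aˣ where
  carrier := {z | 0 < pr h hW e e' z}
  one_mem' := by
    show 0 < pr h hW e e' 1
    rw [map_one]
    exact one_pos
  mul_mem' {z z'} hz hz' := by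
    show 0 < pr h hW e e' (z * z')
    rw [map_mul]
    exact mul_pos hz hz'
  inv_mem' {z} hz := by
    show 0 < pr h hW e e' z⁻¹
    have h1 := pr_inv h hW e e' z
    have h2 : 0 < pr h hW e e' z := hz
    by_contra hcon
    push Not at hcon
    have := mul_nonpos_of_nonneg_of_nonpos h2.le hcon
    linarith

theorem RS_index (h : CF (sh W) A θ) (hW : 0 < W.Δ) (e e' : Rt (sh W) ℂ) :
    (RS h hW e e').index ≠ 0 ∧ (RS h hW e e').index ≤ 2 ^ 1 := by
  by_cases hall : ∀ z, z ∈ RS h hW e e'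
  · have h1 : RS h hW e e' = ⊤ := by
      rw [eq_top_iff]
      exact fun z _ => hall z
    rw [h1, Subgroup.index_top]
    norm_num
  · push Not at hall
    obtain ⟨a, ha⟩ := hall
    have hneg : ∀ z, z ∉ RS h hW e e' → pr h hW e e' z < 0 := by
      intro z hz
      have h1 : ¬ 0 < pr h hW e e' z := hz
      have h2 : pr h hW e e' z ≠ 0 := by
        intro h0
        have h3 := pr_inv h hW e e' z
        rw [h0, zero_mul] at h3
        exact zero_ne_one h3
      exact lt_of_le_of_ne (not_lt.1 h1) h2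
    have h1 : (RS h hW e e').index = 2 := by
      rw [Subgroup.index_eq_two_iff]
      refine ⟨a, fun b => ?_⟩
      by_cases hb : b ∈ RS h hW e e'
      · right
        refine ⟨hb, fun hba => ha ?_⟩
        have := (RS h hW e e').mul_mem ((RS h hW e e').inv_mem hb) hba
        rwa [inv_mul_cancel_left] at this
      · left
        refine ⟨?_, hb⟩
        show 0 < pr h hW e e' (b * a)
        rw [map_mul]
        exact mul_pos_of_neg_of_neg (hneg b hb) (hneg a ha)
    rw [h1]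
    norm_num

/-- the sign at the first root -/
theorem pos_first (h : CF (sh W) A θ) (hW : 0 < W.Δ) {a b c : ℂ}
    (hC : IsC ((sh W).baseChange ℂ).toAffine a b c) {z0 z : Aˣ}
    (hz0 : z0 ∈ RS h hW ⟨b, hC.root_b⟩ ⟨c, hC.root_c⟩) (hz : z = z0 * io A (nrm A z0)) :
    0 < (em h (⟨a, hC.root_a⟩ : Rt (sh W) ℂ) (z : A)).re := by
  have hn := norm_em h hC (z0 : A)
  rw [em_real h hW ⟨a, hC.root_a⟩, em_real h hW ⟨b, hC.root_b⟩, em_real h hW ⟨c, hC.root_c⟩] at hn
  set s1 := (em h (⟨a, hC.root_a⟩ : Rt (sh W) ℂ) (z0 : A)).re with hs1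
  set s2 := (em h (⟨b, hC.root_b⟩ : Rt (sh W) ℂ) (z0 : A)).re with hs2
  set s3 := (em h (⟨c, hC.root_c⟩ : Rt (sh W) ℂ) (z0 : A)).re with hs3
  have hpos : 0 < s2 * s3 := hz0
  have e1 : em h (⟨a, hC.root_a⟩ : Rt (sh W) ℂ) (z : A) = ((s1 * (s1 * s2 * s3) : ℝ) : ℂ) := by
    have e2 : ((io A (nrm A z0) : Aˣ) : A) = algebraMap ℚ A (Algebra.norm ℚ (z0 : A)) := rfl
    rw [hz, Units.val_mul, map_mul, e2, (em h (⟨a, hC.root_a⟩ : Rt (sh W) ℂ)).commutes, hn,
      em_real h hW ⟨a, hC.root_a⟩]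
    push_cast
    rfl
  rw [e1, Complex.ofReal_re]
  have hs10 : s1 ≠ 0 := by
    intro h0
    have h1 := em_real h hW ⟨a, hC.root_a⟩ (z0 : A)
    rw [← hs1, h0, Complex.ofReal_zero] at h1
    exact z0.ne_zero ((em h (⟨a, hC.root_a⟩ : Rt (sh W) ℂ)).injective (h1.trans (map_zero _).symm))
  have h2 : s1 * (s1 * s2 * s3) = s1 ^ 2 * (s2 * s3) := by ring
  rw [h2]
  positivity

theorem cond_realP (h : CF (sh W) A θ) (hW : 0 < W.Δ) {x1 x2 x3 : ℝ} (h12 : x1 < x2)
    (h23 : x2 < x3) (hC : IsC ((sh W).baseChange ℂ).toAffine (x1 : ℂ) (x2 : ℂ) (x3 : ℂ))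
    {z : A} {r : ℚ} (hr0 : r ≠ 0) (hr : Algebra.norm ℚ z = r ^ 2)
    (hpos : 0 < (em h (⟨(x1 : ℂ), hC.root_a⟩ : Rt (sh W) ℂ) z).re) {L : Type} [Field L]
    [Algebra ℚ L] (κ : L ≃+* ℝ) :
    Cond L (AlgebraicClosure L) (sh W) θ z := by
  letI algC : Algebra L ℂ := (Complex.ofRealHom.comp (κ : L →+* ℝ)).toAlgebra
  letI algR : Algebra L ℝ := (κ : L →+* ℝ).toAlgebra
  haveI : IsScalarTower L ℝ ℂ := IsScalarTower.of_algebraMap_eq fun x => rfl
  haveI : Algebra.IsAlgebraic L ℝ := by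
    refine ⟨fun x => ?_⟩
    have h : x = algebraMap L ℝ (κ.symm x) := (κ.apply_symm_apply x).symm
    rw [h]
    exact isAlgebraic_algebraMap _
  haveI : Algebra.IsAlgebraic ℝ ℂ := Algebra.IsAlgebraic.of_finite ℝ ℂ
  haveI : Algebra.IsAlgebraic L ℂ := Algebra.IsAlgebraic.trans L ℝ ℂ
  haveI : IsAlgClosure L ℂ := ⟨inferInstance, inferInstance⟩
  let φ : AlgebraicClosure L ≃ₐ[L] ℂ := IsAlgClosure.equiv L (AlgebraicClosure L) ℂ
  have hφL : ∀ x : L, φ (algebraMap L _ x) = ((κ x : ℝ) : ℂ) := fun x => φ.commutes x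
  have haut : ∀ σ : AlgebraicClosure L ≃ₐ[L] AlgebraicClosure L,
      (∀ x, φ (σ x) = φ x) ∨ ∀ x, φ (σ x) = starRingEnd ℂ (φ x) := by
    intro σ
    let f : ℂ →ₐ[ℝ] ℂ := AlgHom.mk' ((φ.symm.trans (σ.trans φ) : ℂ ≃ₐ[L] ℂ) : ℂ →+* ℂ) (by
      intro r x
      show φ (σ (φ.symm (r • x))) = r • φ (σ (φ.symm x))
      have h1 : r • x = φ (algebraMap L _ (κ.symm r)) * x := by
        rw [hφL, κ.apply_symm_apply, Complex.real_smul]
      rw [h1]
      have h2 : φ.symm (φ (algebraMap L _ (κ.symm r)) * x) =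
          algebraMap L _ (κ.symm r) * φ.symm x := by
        rw [map_mul, φ.symm_apply_apply]
      rw [h2, map_mul, σ.commutes, map_mul, hφL, κ.apply_symm_apply, Complex.real_smul])
    have hf : ∀ x, f (φ x) = φ (σ x) := by
      intro x
      show φ (σ (φ.symm (φ x))) = _
      rw [φ.symm_apply_apply]
    rcases Complex.real_algHom_eq_id_or_conj f with h | h
    · left
      intro x
      rw [← hf, h]
      rfl
    · right
      intro x
      rw [← hf, h]
      rfl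
  -- real square roots
  have hsqrt : ∀ (y : AlgebraicClosure L) (s : ℝ), φ y = (s : ℂ) → 0 < s →
      ∃ w : AlgebraicClosure L, (∀ σ : AlgebraicClosure L ≃ₐ[L] AlgebraicClosure L, σ w = w) ∧
        y = w ^ 2 := by
    intro y s hy hs
    refine ⟨φ.symm ((√s : ℝ) : ℂ), fun σ => ?_, ?_⟩
    · apply φ.injective
      rcases haut σ with h | h
      · rw [h]
      · rw [h, φ.apply_symm_apply, Complex.conj_ofReal]
    · apply φ.injective
      rw [map_pow, φ.apply_symm_apply, hy, ← Complex.ofReal_pow, Real.sq_sqrt hs.le]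
  -- the three embeddings
  set s1 := (em h (⟨(x1 : ℂ), hC.root_a⟩ : Rt (sh W) ℂ) z).re with hs1
  set s2 := (em h (⟨(x2 : ℂ), hC.root_b⟩ : Rt (sh W) ℂ) z).re with hs2
  set s3 := (em h (⟨(x3 : ℂ), hC.root_c⟩ : Rt (sh W) ℂ) z).re with hs3
  have hcases : ∀ ψ : A →+* AlgebraicClosure L,
      (φ (ψ θ) = x1 ∧ φ (ψ z) = s1) ∨ (φ (ψ θ) = x2 ∧ φ (ψ z) = s2) ∨
        (φ (ψ θ) = x3 ∧ φ (ψ z) = s3) := by
    intro ψ
    have h1 := root_em h ((φ : AlgebraicClosure L →+* ℂ).comp ψ)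
    rcases hC.root h1 with h2 | h2 | h2
    · left
      refine ⟨h2, ?_⟩
      have h3 := em_uniq h (⟨(x1 : ℂ), hC.root_a⟩ : Rt (sh W) ℂ)
        ((φ : AlgebraicClosure L →+* ℂ).comp ψ) h2 z
      exact h3.trans (em_real h hW _ z)
    · right; left
      refine ⟨h2, ?_⟩
      have h3 := em_uniq h (⟨(x2 : ℂ), hC.root_b⟩ : Rt (sh W) ℂ)
        ((φ : AlgebraicClosure L →+* ℂ).comp ψ) h2 z
      exact h3.trans (em_real h hW _ z)
    · right; right
      refine ⟨h2, ?_⟩
      have h3 := em_uniq h (⟨(x3 : ℂ), hC.root_c⟩ : Rt (sh W) ℂ)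
        ((φ : AlgebraicClosure L →+* ℂ).comp ψ) h2 z
      exact h3.trans (em_real h hW _ z)
  have hprod : s1 * (s2 * s3) = (r : ℝ) ^ 2 := by
    have hn := norm_em h hC z
    rw [em_real h hW ⟨(x1 : ℂ), hC.root_a⟩, em_real h hW ⟨(x2 : ℂ), hC.root_b⟩,
      em_real h hW ⟨(x3 : ℂ), hC.root_c⟩, hr, ← hs1, ← hs2, ← hs3] at hn
    have h1 : (((r : ℝ) ^ 2 : ℝ) : ℂ) = ((s1 * (s2 * s3) : ℝ) : ℂ) := by
      push_cast
      rw [← mul_assoc, ← hn, map_pow]
      simp
    exact_mod_cast h1.symm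
  have h23p : 0 < s2 * s3 := by
    have h1 : 0 < (r : ℝ) ^ 2 := by
      have : (r : ℝ) ≠ 0 := by exact_mod_cast hr0
      positivity
    rw [← hprod] at h1
    exact (mul_pos_iff_of_pos_left hpos).1 h1
  rcases lt_trichotomy s2 0 with hs | hs | hs
  · -- the point of order two
    have hs3n : s3 < 0 := by
      by_contra hcon
      push Not at hcon
      have := mul_nonpos_of_nonpos_of_nonneg hs.le hcon
      linarith
    have hV := iv_sh W hW.ne'
    have hroot : (0 : L) ^ 2 = cub (sh W) (κ.symm x2) := by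
      have h1 : cub (sh W) (x2 : ℂ) = 0 := hC.root_b
      rw [cub_sh] at h1 ⊢
      apply κ.injective
      simp only [map_add, map_mul, map_pow, map_ofNat, map_intCast, map_zero, κ.apply_symm_apply]
      have h2 : (x2 : ℝ) ^ 3 + (W.b₂ : ℝ) * x2 ^ 2 + 8 * (W.b₄ : ℝ) * x2 + 16 * (W.b₆ : ℝ) = 0 := by
        exact_mod_cast h1
      rw [h2]
      norm_num
    refine cond2 hV.a1 hV.a3 hV.Δ hroot fun ψ => ?_
    have hx2 : φ (algebraMap L (AlgebraicClosure L) (κ.symm x2)) = (x2 : ℂ) := by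
      rw [hφL, κ.apply_symm_apply]
    rcases hcases ψ with ⟨h1, h2⟩ | ⟨h1, h2⟩ | ⟨h1, h2⟩
    · obtain ⟨w, hw, hwe⟩ := hsqrt (ψ z / (algebraMap L _ (κ.symm x2) - ψ θ)) (s1 / (x2 - x1))
        (by rw [map_div₀, map_sub, hx2, h1, h2]; push_cast; rfl)
        (div_pos hpos (by linarith))
      have hne : algebraMap L (AlgebraicClosure L) (κ.symm x2) ≠ ψ θ := by
        intro he
        have := congrArg φ he
        rw [hx2, h1] at this
        have h3 : x2 = x1 := by exact_mod_cast this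
        linarith
      refine ⟨w, _, fun σ _ => hw σ, ?_, Or.inr ⟨hne, rfl⟩⟩
      rw [← hwe, div_mul_cancel₀ _ (sub_ne_zero.2 hne)]
    · have he : algebraMap L (AlgebraicClosure L) (κ.symm x2) = ψ θ := φ.injective (by rw [hx2, h1])
      have hD : φ (cub' (sh W) (ψ θ)) = (((x1 - x2) * (x3 - x2) : ℝ) : ℂ) := by
        have h3 : cub' (sh W) (x2 : ℂ) = ((x1 : ℂ) - x2) * (x3 - x2) := (isC_rot hC).cub'_eq
        rw [cub'_sh] at h3 ⊢
        simp only [map_add, map_mul, map_pow, map_ofNat, map_intCast, h1]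
        rw [h3]
        push_cast
        ring
      have hDneg : (x1 - x2) * (x3 - x2) < 0 := mul_neg_of_neg_of_pos (by linarith) (by linarith)
      obtain ⟨w, hw, hwe⟩ := hsqrt (ψ z / cub' (sh W) (ψ θ)) (s2 / ((x1 - x2) * (x3 - x2)))
        (by rw [map_div₀, hD, h2]; push_cast; rfl)
        (div_pos_of_neg_of_neg hs hDneg)
      have hD0 : cub' (sh W) (ψ θ) ≠ 0 := by
        intro h0
        rw [h0, map_zero] at hD
        have h3 : (x1 - x2) * (x3 - x2) = 0 := by exact_mod_cast hD.symm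
        linarith
      refine ⟨w, _, fun σ _ => hw σ, ?_, Or.inl ⟨he, rfl⟩⟩
      rw [← hwe, div_mul_cancel₀ _ hD0]
    · obtain ⟨w, hw, hwe⟩ := hsqrt (ψ z / (algebraMap L _ (κ.symm x2) - ψ θ)) (s3 / (x2 - x3))
        (by rw [map_div₀, map_sub, hx2, h1, h2]; push_cast; rfl)
        (div_pos_of_neg_of_neg hs3n (by linarith))
      have hne : algebraMap L (AlgebraicClosure L) (κ.symm x2) ≠ ψ θ := by
        intro he
        have := congrArg φ he
        rw [hx2, h1] at this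
        have h3 : x2 = x3 := by exact_mod_cast this
        linarith
      refine ⟨w, _, fun σ _ => hw σ, ?_, Or.inr ⟨hne, rfl⟩⟩
      rw [← hwe, div_mul_cancel₀ _ (sub_ne_zero.2 hne)]
  · rw [hs, zero_mul] at h23p
    exact absurd h23p (lt_irrefl _)
  · have hs3p : 0 < s3 := (mul_pos_iff_of_pos_left hs).1 h23p
    refine cond1 fun ψ => ?_
    rcases hcases ψ with ⟨h1, h2⟩ | ⟨h1, h2⟩ | ⟨h1, h2⟩
    · obtain ⟨w, hw, hwe⟩ := hsqrt _ _ h2 hpos
      exact ⟨w, fun σ _ => hw σ, hwe⟩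
    · obtain ⟨w, hw, hwe⟩ := hsqrt _ _ h2 hs
      exact ⟨w, fun σ _ => hw σ, hwe⟩
    · obtain ⟨w, hw, hwe⟩ := hsqrt _ _ h2 hs3p
      exact ⟨w, fun σ _ => hw σ, hwe⟩

theorem cond_infP (h : CF (sh W) A θ) (hW : 0 < W.Δ) {x1 x2 x3 : ℝ} (h12 : x1 < x2)
    (h23 : x2 < x3) (hC : IsC ((sh W).baseChange ℂ).toAffine (x1 : ℂ) (x2 : ℂ) (x3 : ℂ))
    {z : A} {r : ℚ} (hr0 : r ≠ 0) (hr : Algebra.norm ℚ z = r ^ 2)
    {K : Type} [Field K] [NumberField K] (v : InfinitePlace K)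
    (hpos : v.IsReal → 0 < (em h (⟨(x1 : ℂ), hC.root_a⟩ : Rt (sh W) ℂ) z).re) :
    Cond v.Completion (AlgebraicClosure v.Completion) (sh W) θ z := by
  rcases v.isReal_or_isComplex with hv | hv
  · exact cond_conv _ _ _ _ _ _
      (cond_realP h hW h12 h23 hC hr0 hr (hpos hv)
        (InfinitePlace.Completion.ringEquivRealOfIsReal hv))
  · haveI : IsAlgClosed v.Completion :=
      IsAlgClosed.of_ringEquiv _ _ (InfinitePlace.Completion.ringEquivComplexOfIsComplex hv).symm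
    exact cond_conv _ _ _ _ _ _ (cond_cplx z)

end emb

end Pool.Agent.R425.P
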