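import Pool.Agent.R425.G.Cl4
import Pool.Agent.R425.P.Rr

/-!
# A nontrivial locally trivial class, positive discriminant
-/

set_option autoImplicit false
set_option linter.all false

open NumberField IsDedekindDomain WithZero WeierstrassCurve WeierstrassCurve.Affine
open scoped NNReal Classical

namespace Pool.Agent.R425.P

open Pool.Agent.TH115.GD
open Pool.Agent.Y710.CV (Cond cond1 cond2)
open Pool.Agent.Y702.G (sh base pts)
open Pool.Agent.R425 (Ev exists_cls sq_of_triv)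
open Pool.Agent.Y809.BS (presQ)
open Pool.Agent.R425.G

/-- A class over `ℚ`, locally trivial over `K`, nontrivial over `K`. -/
theorem class_of_z (K : Type) [Field K] [NumberField K] [IsGalois ℚ K] {W : WeierstrassCurve ℤ}
    (hW : W.Δ ≠ 0) (hnr : ∀ x : K, cub (sh W) x ≠ 0) {A : Type} [Field A] [NumberField A] {θ : A}
    (hcf : CF (sh W) A θ) (z : Aˣ) {r : ℚ} (hr0 : r ≠ 0) (hr : Algebra.norm ℚ (z : A) = r ^ 2)
    (hzsq : ¬ ∃ s : A, (z : A) = s ^ 2)
    (hcondF : ∀ v : HeightOneSpectrum (𝓞 K),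
      Cond (v.adicCompletion K) (AlgebraicClosure (v.adicCompletion K)) (sh W) θ (z : A))
    (hcondI : ∀ v : InfinitePlace K,
      Cond v.Completion (AlgebraicClosure v.Completion) (sh W) θ (z : A)) :
    ∃ g : (AlgebraicClosure K ≃ₐ[ℚ] AlgebraicClosure K) → Pt (sh W) (AlgebraicClosure K),
      IsLocallyConstant g ∧ (∀ σ τ, g (σ * τ) = g σ + act (sh W) (ak σ) (g τ)) ∧
      (∀ σ, g σ + g σ = 0) ∧
      (∀ v : HeightOneSpectrum (𝓞 K), LocTriv (F := ℚ) (Ω := AlgebraicClosure K) (sh W)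
        (v.adicCompletion K) (AlgebraicClosure (v.adicCompletion K)) g) ∧
      (∀ v : InfinitePlace K, LocTriv (F := ℚ) (Ω := AlgebraicClosure K) (sh W)
        v.Completion (AlgebraicClosure v.Completion) g) ∧
      ¬ ∃ T : Pt (sh W) (AlgebraicClosure K), T + T = 0 ∧
        ∀ σ : AlgebraicClosure K ≃ₐ[K] AlgebraicClosure K,
          g (σ.restrictScalars ℚ) = act (sh W) (rs ℚ σ) T - T := by
  haveI : IsGalois ℚ (AlgebraicClosure K) := IsGalois.mk
  haveI : CharZero (AlgebraicClosure K) := algebraRat.charZero _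
  have hV := iv_sh W hW
  have hnrQ : ∀ x : ℚ, cub (sh W) x ≠ 0 := by
    intro x hx
    apply hnr (algebraMap ℚ K x)
    have h := cub_map (sh W) (incl ℚ ℚ K) x
    rw [hx, map_zero] at h
    exact h
  obtain ⟨a, b, c, hC⟩ := Y355.G.V_roots hV.a1 hV.a3 hV.Δ (AlgebraicClosure K)
  have hnorm := norm_em hcf hC (z : A)
  rw [← zf_root hcf (z : A) ⟨a, hC.root_a⟩, ← zf_root hcf (z : A) ⟨b, hC.root_b⟩,
    ← zf_root hcf (z : A) ⟨c, hC.root_c⟩, hr, map_pow] at hnorm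
  have hζ0 : ∀ e : AlgebraicClosure K, cub (sh W) e = 0 → zf hcf (z : A) e ≠ 0 := by
    intro e he h0
    have h1 := zf_root hcf (z : A) (⟨e, he⟩ : Rt (sh W) (AlgebraicClosure K))
    rw [h0] at h1
    exact z.ne_zero ((em hcf _).injective ((map_zero _).trans h1).symm)
  obtain ⟨g, tt, hg1, hg2, hg3, hg4, hg5, hg6⟩ := exists_cls hC (fun e => zf hcf (z : A) e)
    (fun σ e he => zf_equi hcf (z : A) σ he) hζ0 (r := r) hnorm.symm
  set ia := em hcf (⟨a, hC.root_a⟩ : Rt (sh W) (AlgebraicClosure K)) with hia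
  have hθ : (ia : A →+* AlgebraicClosure K) θ = a := em_root hcf _
  have hk : ∀ τ : AlgebraicClosure K ≃ₐ[ℚ] AlgebraicClosure K, τ a = a →
      τ (tt a) = sC a (g τ) * tt a := by
    intro τ hτ
    have h := hg6 τ a hC.root_a
    have h3 : τ⁻¹ a = a := by
      apply τ.injective
      rw [← AlgEquiv.mul_apply, mul_inv_cancel]
      exact hτ.symm
    rwa [h3] at h
  have hta : tt a ^ 2 = (ia : A →+* AlgebraicClosure K) (z : A) :=
    (hg4 a hC.root_a).2.trans (zf_root hcf (z : A) ⟨a, hC.root_a⟩)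
  refine ⟨g, hg1, hg2, hg3, fun v => ?_, fun v => ?_, ?_⟩
  · haveI : IsGalois (v.adicCompletion K) (AlgebraicClosure (v.adicCompletion K)) := by
      haveI : CharZero (v.adicCompletion K) := algebraRat.charZero _
      infer_instance
    exact Pool.Agent.Y710.CV.core' (sh W) (ia : A →+* AlgebraicClosure K) (θ := θ)
      (b := b) (c := c) (by rw [hθ]; exact hC) hnrQ hg2 hg3
      (t := tt a) (hg4 a hC.root_a).1 hta
      (by rw [hθ]; exact hk) (hcondF v)
  · haveI : IsGalois v.Completion (AlgebraicClosure v.Completion) := by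
      haveI : CharZero v.Completion := algebraRat.charZero _
      infer_instance
    exact Pool.Agent.Y710.CV.core' (sh W) (ia : A →+* AlgebraicClosure K) (θ := θ)
      (b := b) (c := c) (by rw [hθ]; exact hC) hnrQ hg2 hg3
      (t := tt a) (hg4 a hC.root_a).1 hta
      (by rw [hθ]; exact hk) (hcondI v)
  · rintro ⟨T, hT, hT2⟩
    -- the subgroup
    set H : Subgroup (AlgebraicClosure K ≃ₐ[ℚ] AlgebraicClosure K) :=
      (AlgEquiv.restrictScalarsHom ℚ :
        (AlgebraicClosure K ≃ₐ[K] AlgebraicClosure K) →* _).range with hH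
    haveI : H.Normal := by
      refine ⟨fun σ hσ τ => ?_⟩
      obtain ⟨σ0, rfl⟩ := hσ
      obtain ⟨σ', hσ'⟩ := exists_conj (presQ K) τ⁻¹ σ0
      refine ⟨σ', AlgEquiv.ext fun x => ?_⟩
      show σ' x = τ (σ0 (τ⁻¹ x))
      have h := hσ' x
      rw [← h, ← AlgEquiv.mul_apply, mul_inv_cancel]
      rfl
    have htrans : ∀ e, cub (sh W) e = 0 → ∃ σ ∈ H, σ a = e := by
      intro e he
      obtain ⟨σ, hσ⟩ := trans_roots hC hnr e (hC.root he)
      exact ⟨σ.restrictScalars ℚ, ⟨σ, rfl⟩, hσ⟩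
    obtain ⟨t', ht1, ht2⟩ := sq_of_triv hC (ζ := fun e => zf hcf (z : A) e) (g := g) (t := tt)
      (r := r) hr0 hg3 hg4 hg5 hg6 H htrans hT (by
        rintro σ ⟨σ0, rfl⟩
        exact hT2 σ0)
    obtain ⟨s, hs⟩ := mem_of_stab hcf (⟨a, hC.root_a⟩ : Rt (sh W) (AlgebraicClosure K))
      (x := t' a) (fun σ hσ => by
        have hσ' : σ a = a := hσ
        rw [ht2 σ a hC.root_a, hσ'])
    apply hzsq
    have key : em hcf (⟨a, hC.root_a⟩ : Rt (sh W) (AlgebraicClosure K)) (z : A) =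
        em hcf (⟨a, hC.root_a⟩ : Rt (sh W) (AlgebraicClosure K)) (s ^ 2) := by
      rw [map_pow, hs]
      exact ((ht1 a hC.root_a).trans (zf_root hcf (z : A) ⟨a, hC.root_a⟩)).symm
    exact ⟨s, (em hcf (⟨a, hC.root_a⟩ : Rt (sh W) (AlgebraicClosure K))).toRingHom.injective key⟩

/-- there is a place over every prime number -/
theorem tq_pos {V : WeierstrassCurve ℚ} (hV : IV V) {A : Type} [Field A] [NumberField A] {θ : A}
    (h : CF V A θ) {l : ℕ} (hl : l.Prime) : 1 ≤ (Tq A l).ncard := by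
  obtain ⟨p, rfl⟩ := exists_ng hl
  obtain ⟨a, b, c, hC⟩ := Y355.G.V_roots hV.a1 hV.a3 hV.Δ (AlgebraicClosure (p.adicCompletion ℚ))
  haveI := gal_p p
  obtain ⟨w, hσ, hL, hfour⟩ := exists_ld p
  haveI := rt_finite hC
  haveI : Finite (Orb V (p.adicCompletion ℚ) (AlgebraicClosure (p.adicCompletion ℚ))) :=
    Quotient.finite _
  haveI : Nonempty (Orb V (p.adicCompletion ℚ) (AlgebraicClosure (p.adicCompletion ℚ))) :=
    ⟨Quotient.mk _ ⟨a, hC.root_a⟩⟩
  have h1 : 1 ≤ Nat.card (Orb V (p.adicCompletion ℚ) (AlgebraicClosure (p.adicCompletion ℚ))) :=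
    Nat.card_pos
  exact h1.trans (orb_le_tq h w hC hL (hV.int h.root))

/-- A class over `ℚ`, locally trivial over `K`, nontrivial over `K`, if the cubic has a root modulo
`l` or `K` is totally complex. -/
theorem exists_classP (K : Type) [Field K] [NumberField K] [IsGalois ℚ K] {W : WeierstrassCurve ℤ}
    (hW : 0 < W.Δ) (hnr : ∀ x : K, cub (sh W) x ≠ 0) {l : ℕ} (hl : l.Prime)
    (hlD : ¬ (l : ℤ) ∣ 2 * W.Δ)
    (hcase : (∃ n : ℤ, (l : ℤ) ∣ n ^ 3 + W.b₂ * n ^ 2 + 8 * W.b₄ * n + 16 * W.b₆) ∨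
      ∀ v : InfinitePlace K, ¬ v.IsReal) (hram : Ev K l) :
    ∃ g : (AlgebraicClosure K ≃ₐ[ℚ] AlgebraicClosure K) → Pt (sh W) (AlgebraicClosure K),
      IsLocallyConstant g ∧ (∀ σ τ, g (σ * τ) = g σ + act (sh W) (ak σ) (g τ)) ∧
      (∀ σ, g σ + g σ = 0) ∧
      (∀ v : HeightOneSpectrum (𝓞 K), LocTriv (F := ℚ) (Ω := AlgebraicClosure K) (sh W)
        (v.adicCompletion K) (AlgebraicClosure (v.adicCompletion K)) g) ∧
      (∀ v : InfinitePlace K, LocTriv (F := ℚ) (Ω := AlgebraicClosure K) (sh W)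
        v.Completion (AlgebraicClosure v.Completion) g) ∧
      ¬ ∃ T : Pt (sh W) (AlgebraicClosure K), T + T = 0 ∧
        ∀ σ : AlgebraicClosure K ≃ₐ[K] AlgebraicClosure K,
          g (σ.restrictScalars ℚ) = act (sh W) (rs ℚ σ) T - T := by
  have hV := iv_sh W hW.ne'
  have hnrQ : ∀ x : ℚ, cub (sh W) x ≠ 0 := by
    intro x hx
    apply hnr (algebraMap ℚ K x)
    have h := cub_map (sh W) (incl ℚ ℚ K) x
    rw [hx, map_zero] at h
    exact h
  obtain ⟨A, hA1, hA2, θ, hcf⟩ := exists_cf hV hnrQ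
  have hD0 : 2 * W.Δ ≠ 0 := mul_ne_zero two_ne_zero hW.ne'
  have hl0 : (l : ℤ) ≠ 0 := by exact_mod_cast hl.ne_zero
  obtain ⟨x1, x2, x3, h12, h23, hC⟩ := exists_roots hW
  have hrk := rank_two hcf hW
  have hfin : ∀ z : Aˣ, ∀ r : ℚ, Algebra.norm ℚ (z : A) = r ^ 2 →
      (∀ u : HeightOneSpectrum (𝓞 A), ((2 * W.Δ * l : ℤ) : 𝓞 A) ∉ u.asIdeal →
        u.valuation A (z : A) = 1) →
      (∀ p : HeightOneSpectrum (𝓞 ℚ), (ng p : ℤ) ∣ 2 * W.Δ →
        Cond (p.adicCompletion ℚ) (AlgebraicClosure (p.adicCompletion ℚ)) (sh W) θ (z : A)) →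
      ∀ v : HeightOneSpectrum (𝓞 K),
        Cond (v.adicCompletion K) (AlgebraicClosure (v.adicCompletion K)) (sh W) θ (z : A) := by
    intro z r hr hzv hzc v
    by_cases hv : ((2 * W.Δ : ℤ) : 𝓞 K) ∈ v.asIdeal
    · obtain ⟨q, hq, hqv⟩ := exists_prime_mem v
      obtain ⟨p, rfl⟩ := exists_ng hq
      exact cond_place v p hV hcf hqv (hzc p (not_both hq hqv hv))
    · exact cond_good hcf hW.ne' hl hlD z.ne_zero hr hzv hram v hv
  rcases hcase with ⟨n, hn⟩ | hcx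
  · obtain ⟨i1, i2⟩ := RS_index hcf hW ⟨(x2 : ℂ), hC.root_b⟩ ⟨(x3 : ℂ), hC.root_c⟩
    obtain ⟨z0, z, hz0, hz, ⟨r, hr0, hr⟩, hzsq, hzv, hzc⟩ := exists_zG hcf hV hD0 hl hlD 1
      (RS hcf hW ⟨(x2 : ℂ), hC.root_b⟩ ⟨(x3 : ℂ), hC.root_c⟩) i1 i2 (by
        have := tq_two hcf hW.ne' hl hlD hn
        omega) (mul_ne_zero hD0 hl0)
    have hpos := pos_first hcf hW hC hz0 hz
    exact class_of_z K hW.ne' hnr hcf z hr0 hr hzsq (hfin z r hr hzv hzc)
      (fun v => cond_infP hcf hW h12 h23 hC hr0 hr v fun _ => hpos)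
  · obtain ⟨z0, z, hz0, hz, ⟨r, hr0, hr⟩, hzsq, hzv, hzc⟩ := exists_zG hcf hV hD0 hl hlD 0
      (⊤ : Subgroup Aˣ) (by rw [Subgroup.index_top]; norm_num) (by rw [Subgroup.index_top]; norm_num)
      (by
        have := tq_pos hV hcf hl
        omega) (mul_ne_zero hD0 hl0)
    exact class_of_z K hW.ne' hnr hcf z hr0 hr hzsq (hfin z r hr hzv hzc)
      (fun v => cond_infP hcf hW h12 h23 hC hr0 hr v fun hv => absurd hv (hcx v))

end Pool.Agent.R425.P
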