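import Pool.Agent.R425.G.Cl7
import Pool.Agent.R425.P.Cl4
import Pool.Agent.Y93.G.Inv

/-!
# A nontrivial Selmer group over a totally real Galois 2-extension has a class which comes from the
# rational numbers, with the conditions at the real places
-/

set_option autoImplicit false
set_option linter.all false

open NumberField IsDedekindDomain WithZero WeierstrassCurve WeierstrassCurve.Affine
open scoped Classical

namespace Pool.Agent.R425.P

open Pool.Agent.TH115.GD
open Pool.Agent.Y809.BS (cj cj_spec cj_unique cj_one cj_mul cj_cj tw tw_coc tw_two tw_one tw_mul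
  tw_inner loc_zero' loc_congr presQ exists_place conj_loc exists_fixed)
open Pool.Agent.R425.G (SelT)
open Pool.Agent.Y93.G (roots)

section inf

variable {K : Type} [Field K] [NumberField K]

theorem ext_coe {v : InfinitePlace K} (hv : v.IsReal) (x : K) :
    InfinitePlace.Completion.ringEquivRealOfIsReal hv (algebraMap K v.Completion x) =
      InfinitePlace.embedding_of_isReal hv x :=
  InfinitePlace.Completion.extensionEmbeddingOfIsReal_coe hv ((WithAbs.equiv v.1).symm x)

theorem exists_place_inf (t : K ≃+* K) (v : InfinitePlace K) (hv : v.IsReal) :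
    ∃ (u : InfinitePlace K) (j : u.Completion →+* v.Completion),
      ∀ x : K, j (algebraMap K _ x) = algebraMap K _ (t x) := by
  let ψ : K →+* ℂ := (v.embedding).comp (t : K →+* K)
  have hψ : ComplexEmbedding.IsReal ψ := by
    have h1 : ComplexEmbedding.IsReal v.embedding := InfinitePlace.isReal_iff.1 hv
    refine RingHom.ext fun x => ?_
    have h2 := RingHom.congr_fun h1 (t x)
    exact h2
  let u : InfinitePlace K := InfinitePlace.mk ψ
  have hu : u.IsReal := ⟨ψ, hψ, rfl⟩
  refine ⟨u, ((InfinitePlace.Completion.ringEquivRealOfIsReal hv).symm : ℝ →+* v.Completion).comp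
    (InfinitePlace.Completion.ringEquivRealOfIsReal hu : u.Completion →+* ℝ), fun x => ?_⟩
  show (InfinitePlace.Completion.ringEquivRealOfIsReal hv).symm
    (InfinitePlace.Completion.ringEquivRealOfIsReal hu (algebraMap K u.Completion x)) = _
  rw [RingEquiv.symm_apply_eq, ext_coe, ext_coe]
  have h1 : ((InfinitePlace.embedding_of_isReal hu x : ℝ) : ℂ) =
      ((InfinitePlace.embedding_of_isReal hv (t x) : ℝ) : ℂ) := by
    rw [InfinitePlace.embedding_of_isReal_apply, InfinitePlace.embedding_of_isReal_apply,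
      InfinitePlace.embedding_mk_eq_of_isReal hψ]
    rfl
  exact_mod_cast h1

end inf

section main

variable (V : WeierstrassCurve ℚ) (K : Type) [Field K] [NumberField K]

/-- The Selmer cocycles. -/
structure IsSel (f : (AlgebraicClosure K ≃ₐ[K] AlgebraicClosure K) → Pt V (AlgebraicClosure K)) :
    Prop where
  coc : IsCoc V f
  two : ∀ σ, f σ + f σ = 0
  loc : ∀ v : HeightOneSpectrum (𝓞 K),
    LocTriv V (v.adicCompletion K) (AlgebraicClosure (v.adicCompletion K)) f
  inf : ∀ v : InfinitePlace K, LocTriv V v.Completion (AlgebraicClosure v.Completion) f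

theorem isSepClosed_inf (v : InfinitePlace K) : IsSepClosed (AlgebraicClosure v.Completion) :=
  inferInstance

/-- The group of the Selmer cocycles. -/
noncomputable def selCoc : AddSubgroup
    ((AlgebraicClosure K ≃ₐ[K] AlgebraicClosure K) → Pt V (AlgebraicClosure K)) where
  carrier := {f | IsSel V K f}
  zero_mem' := ⟨⟨IsLocallyConstant.const _, fun σ τ => by
      show (0 : Pt V (AlgebraicClosure K)) = 0 + act V (rs ℚ σ) 0
      rw [map_zero, add_zero]⟩, fun σ => add_zero _, fun v => loc_zero' V, fun v => loc_zero' V⟩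
  add_mem' := fun {f g} hf hg => ⟨⟨hf.coc.lc.add hg.coc.lc, fun σ τ => by
      show f (σ * τ) + g (σ * τ) = f σ + g σ + act V (rs ℚ σ) (f τ + g τ)
      rw [hf.coc.mul, hg.coc.mul, map_add]
      abel⟩, fun σ => by
      show (f σ + g σ) + (f σ + g σ) = 0
      rw [add_add_add_comm, hf.two, hg.two, add_zero],
    fun v => LocTriv.add V hg.coc (hf.loc v) (hg.loc v),
    fun v => LocTriv.add V hg.coc (hf.inf v) (hg.inf v)⟩
  neg_mem' := fun {f} hf => ⟨⟨hf.coc.lc.neg, fun σ τ => by
      show -f (σ * τ) = -f σ + act V (rs ℚ σ) (-f τ)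
      rw [hf.coc.mul, map_neg]
      abel⟩, fun σ => by
      show -f σ + -f σ = 0
      rw [← neg_add, hf.two, neg_zero],
    fun v => loc_congr (LocTriv.smul V (hf.loc v) (-1)) (fun σ => by
      show (-1 : ℤ) • f σ = - f σ
      rw [neg_smul, one_smul]),
    fun v => loc_congr (LocTriv.smul V (hf.inf v) (-1)) (fun σ => by
      show (-1 : ℤ) • f σ = - f σ
      rw [neg_smul, one_smul])⟩

/-- The coboundaries of the points of order two. -/
noncomputable def cobTwo : AddSubgroup (selCoc V K) where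
  carrier := {f | ∃ T : Pt V (AlgebraicClosure K), T + T = 0 ∧
    ∀ σ, f.1 σ = act V (rs ℚ σ) T - T}
  zero_mem' := ⟨0, add_zero 0, fun σ => by
    show (0 : Pt V (AlgebraicClosure K)) = _
    rw [map_zero, sub_zero]⟩
  add_mem' := fun {f g} hf hg => by
    obtain ⟨T, hT, h1⟩ := hf
    obtain ⟨S, hS, h2⟩ := hg
    refine ⟨T + S, by rw [add_add_add_comm, hT, hS, add_zero], fun σ => ?_⟩
    show f.1 σ + g.1 σ = _
    rw [h1, h2, map_add]
    abel
  neg_mem' := fun {f} hf => by
    obtain ⟨T, hT, h1⟩ := hf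
    refine ⟨-T, by rw [← neg_add, hT, neg_zero], fun σ => ?_⟩
    show - f.1 σ = _
    rw [h1, map_neg]
    abel

variable [IsGalois ℚ K] (hre : ∀ v : InfinitePlace K, v.IsReal)

include hre in
theorem tw_sel (τ : AlgebraicClosure K ≃ₐ[ℚ] AlgebraicClosure K)
    {f : (AlgebraicClosure K ≃ₐ[K] AlgebraicClosure K) → Pt V (AlgebraicClosure K)}
    (hf : IsSel V K f) : IsSel V K (tw (presQ K) V τ f) := by
  refine ⟨tw_coc _ _ _ hf.coc, tw_two _ _ _ hf.two, fun v => ?_, fun v => ?_⟩
  · obtain ⟨u, j, hj⟩ := exists_place (τ.restrictNormal K).toRingEquiv v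
    refine conj_loc (L := u.adicCompletion K) (Ω' := AlgebraicClosure (u.adicCompletion K)) V
      (presQ K) (τ.restrictNormal K).toRingEquiv τ
      (fun x => (AlgEquiv.restrictNormal_commutes τ K x).symm) j hj ?_ (hf.loc u)
    intro σ σ' h
    rw [cj_unique (presQ K) τ σ σ' h]
    rfl
  · obtain ⟨u, j, hj⟩ := exists_place_inf (τ.restrictNormal K).toRingEquiv v (hre v)
    haveI : IsGalois u.Completion (AlgebraicClosure u.Completion) := by
      haveI : CharZero u.Completion := algebraRat.charZero _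
      infer_instance
    haveI : IsGalois v.Completion (AlgebraicClosure v.Completion) := by
      haveI : CharZero v.Completion := algebraRat.charZero _
      infer_instance
    refine conj_loc (L := u.Completion) (Ω' := AlgebraicClosure u.Completion) V
      (presQ K) (τ.restrictNormal K).toRingEquiv τ
      (fun x => (AlgEquiv.restrictNormal_commutes τ K x).symm) j hj ?_ (hf.inf u)
    intro σ σ' h
    rw [cj_unique (presQ K) τ σ σ' h]
    rfl

/-- The action on the Selmer cocycles. -/
noncomputable def twS (τ : AlgebraicClosure K ≃ₐ[ℚ] AlgebraicClosure K) :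
    selCoc V K →+ selCoc V K where
  toFun f := ⟨tw (presQ K) V τ f.1, tw_sel V K hre τ f.2⟩
  map_zero' := Subtype.ext (by
    funext σ
    show act V (ak τ) 0 = 0
    rw [map_zero])
  map_add' f g := Subtype.ext (by
    funext σ
    show act V (ak τ) (f.1 _ + g.1 _) = _
    rw [map_add]
    rfl)

end main

theorem s_invP (V : WeierstrassCurve ℚ) (h1 : V.a₁ = 0) (h3 : V.a₃ = 0) (hΔ : V.Δ ≠ 0)
    (K : Type) [Field K] [NumberField K] [IsGalois ℚ K] (hre : ∀ v : InfinitePlace K, v.IsReal)
    (n : ℕ) (hn : Module.finrank ℚ K = 2 ^ n) (hnr : ∀ x : K, cub V x ≠ 0) (hsel : ¬ SelT V K) :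
    ∃ g : (AlgebraicClosure K ≃ₐ[ℚ] AlgebraicClosure K) → Pt V (AlgebraicClosure K),
      IsLocallyConstant g ∧ (∀ σ τ, g (σ * τ) = g σ + act V (ak σ) (g τ)) ∧ (∀ σ, g σ + g σ = 0) ∧
      (∀ v : HeightOneSpectrum (𝓞 K),
        LocTriv V (v.adicCompletion K) (AlgebraicClosure (v.adicCompletion K))
          (fun σ : AlgebraicClosure K ≃ₐ[K] AlgebraicClosure K => g (σ.restrictScalars ℚ))) ∧
      (∀ v : InfinitePlace K,
        LocTriv V v.Completion (AlgebraicClosure v.Completion)
          (fun σ : AlgebraicClosure K ≃ₐ[K] AlgebraicClosure K => g (σ.restrictScalars ℚ))) ∧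
      ¬ ∃ T : Pt V (AlgebraicClosure K), T + T = 0 ∧
        ∀ σ : AlgebraicClosure K ≃ₐ[ℚ] AlgebraicClosure K, g σ = act V (ak σ) T - T := by
  obtain ⟨a, b, c, hC⟩ := roots h1 h3 hΔ (AlgebraicClosure K)
  -- a nontrivial class
  obtain ⟨f0, hf0, hf0n⟩ : ∃ f, ∃ hf : IsSel V K f, (⟨f, hf⟩ : selCoc V K) ∉ cobTwo V K := by
    by_contra hno
    push Not at hno
    apply hsel
    intro f h1 h2 h3 h4
    exact hno f ⟨h1, h2, h3, h4⟩
  have hQ : IsPGroup 2 (K ≃ₐ[ℚ] K) := by
    apply IsPGroup.of_card (n := n)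
    rw [← hn]
    exact IsGalois.card_aut_eq_finrank ℚ K
  obtain ⟨f, hfn, hfix⟩ := exists_fixed hQ
    (AlgEquiv.restrictNormalHom K : (AlgebraicClosure K ≃ₐ[ℚ] AlgebraicClosure K) →* (K ≃ₐ[ℚ] K))
    (cobTwo V K) (twS V K hre)
    (fun f => Subtype.ext (tw_one _ _ _)) (fun τ τ' f => Subtype.ext (tw_mul _ _ _ _ _))
    (by
      rintro τ f ⟨T, hT, h1⟩
      refine ⟨act V (ak τ) T, by rw [← map_add, hT, map_zero], fun σ => ?_⟩
      show act V (ak τ) (f.1 (cj (presQ K) τ σ)) = _
      have e : (ak τ).comp (rs ℚ (cj (presQ K) τ σ)) = (rs ℚ σ).comp (ak τ) :=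
        AlgHom.ext fun x => cj_spec (presQ K) τ σ x
      rw [h1, map_sub, act_act, act_act, e])
    (by
      intro τ hτ f
      have h1 : ∀ x : K, τ (algebraMap K (AlgebraicClosure K) x) =
          algebraMap K (AlgebraicClosure K) x := by
        intro x
        have h3 := AlgEquiv.restrictNormal_commutes τ K x
        have h4 : τ.restrictNormal K = 1 := hτ
        rw [h4] at h3
        exact h3.symm
      set σ0 : AlgebraicClosure K ≃ₐ[K] AlgebraicClosure K :=
        AlgEquiv.ofRingEquiv (f := τ.toRingEquiv) h1 with hσ0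
      have h5 : σ0.restrictScalars ℚ = τ := AlgEquiv.ext fun x => rfl
      refine ⟨f.1 σ0, f.2.two σ0, fun σ => ?_⟩
      have h6 := tw_inner (presQ K) V σ0 f.2.coc σ
      rw [h5] at h6
      exact h6)
    (fun f => Subtype.ext (funext fun σ => f.2.two σ)) hf0n
  have hinv : InvOne V f.1 := by
    intro τ
    obtain ⟨R, hR, h1⟩ := hfix τ
    refine ⟨R, ⟨1, by rw [pow_one, two_nsmul, hR]⟩, fun σ σ' h => ?_⟩
    rw [← h1 σ]
    show _ = act V (ak τ) (f.1 (cj (presQ K) τ σ)) - f.1 σ
    rw [cj_unique (presQ K) τ σ σ' h]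
  obtain ⟨g, hg1, hg2, hg3, hg4⟩ := ext_coc hC hnr (presQ K) f.2.coc f.2.two hinv
  refine ⟨g, hg1, hg2, hg3, fun v => loc_congr (f.2.loc v) fun σ => (hg4 σ).symm,
    fun v => loc_congr (f.2.inf v) fun σ => (hg4 σ).symm, ?_⟩
  rintro ⟨T, hT, h1⟩
  apply hfn
  refine ⟨T, hT, fun σ => ?_⟩
  rw [← hg4, h1]
  rfl

end Pool.Agent.R425.P
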